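import Mathlib
import Pool.Agent.H82.AS.Targets2
import Pool.Agent.H89.PS.LOWC

/-!
# The lower bound for the tail of the height (MP_7ecdd4_nt, row LTL)
-/

set_option autoImplicit false

open Pool.Agent.H38.RB Pool.Agent.H38.PS Pool.Agent.H82.AS

namespace Pool.Agent.H11.AS

open Pool.Agent.H89.PS (tr tr_inj tr_adm fin_ht sum_sq')

/-- the coprime pairs -/
def CQ (U A : ℕ) : Finset (ℕ × ℕ) :=
  (Finset.Icc 1 U ×ˢ Finset.Ioc A (2 * A)).filter fun q => Nat.Coprime q.1 q.2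

lemma cop_card (U A : ℕ) (hA : 9 ≤ A) (hU : 6 * U ≤ A + 1) :
    3 / 20 * ((U : ℝ) * A) ≤ ((CQ U A).card : ℝ) := by
  classical
  have h1 : (Finset.Icc 1 U ×ˢ Finset.Ioc A (2 * A)).card = U * A := by
    rw [Finset.card_product, Nat.card_Icc, Nat.card_Ioc]
    congr 1
    omega
  have h2 := Finset.card_filter_add_card_filter_not (s := Finset.Icc 1 U ×ˢ Finset.Ioc A (2 * A))
    (fun q : ℕ × ℕ => Nat.Coprime q.1 q.2)
  have h3 : ((Finset.Icc 1 U ×ˢ Finset.Ioc A (2 * A)).filter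
      fun q : ℕ × ℕ => ¬ Nat.Coprime q.1 q.2) ⊆ (Finset.Icc 2 U).biUnion fun g =>
        (Finset.Icc 1 (U / g) ×ˢ Finset.Ioc (A / g) (2 * A / g)).image
          fun q => (g * q.1, g * q.2) := by
    intro q hq
    rw [Finset.mem_filter, Finset.mem_product, Finset.mem_Icc, Finset.mem_Ioc] at hq
    obtain ⟨⟨⟨ha, hb⟩, hc, hd⟩, hn⟩ := hq
    rw [Finset.mem_biUnion]
    have hg0 : 0 < Nat.gcd q.1 q.2 := Nat.gcd_pos_of_pos_left _ (by omega)
    have hg1 : Nat.gcd q.1 q.2 ≠ 1 := hn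
    have hgY : Nat.gcd q.1 q.2 ≤ U := (Nat.gcd_le_left _ (by omega)).trans hb
    refine ⟨Nat.gcd q.1 q.2, Finset.mem_Icc.2 ⟨by omega, hgY⟩, ?_⟩
    rw [Finset.mem_image]
    refine ⟨(q.1 / Nat.gcd q.1 q.2, q.2 / Nat.gcd q.1 q.2), ?_, ?_⟩
    · rw [Finset.mem_product, Finset.mem_Icc, Finset.mem_Ioc]
      refine ⟨⟨?_, Nat.div_le_div_right hb⟩, ?_, Nat.div_le_div_right hd⟩
      · exact Nat.div_pos (Nat.gcd_le_left _ (by omega)) hg0
      · show A / Nat.gcd q.1 q.2 < q.2 / Nat.gcd q.1 q.2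
        rw [Nat.div_lt_iff_lt_mul hg0, Nat.div_mul_cancel (Nat.gcd_dvd_right _ _)]
        exact hc
    · refine Prod.ext ?_ ?_
      · exact Nat.mul_div_cancel' (Nat.gcd_dvd_left _ _)
      · exact Nat.mul_div_cancel' (Nat.gcd_dvd_right _ _)
  have h4 := (Finset.card_le_card h3).trans Finset.card_biUnion_le
  have h5 : ∀ g ∈ Finset.Icc 2 U, ((((Finset.Icc 1 (U / g) ×ˢ Finset.Ioc (A / g) (2 * A / g)).image
      fun q : ℕ × ℕ => (g * q.1, g * q.2)).card : ℕ) : ℝ) ≤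
        (U : ℝ) * A * (1 / (g : ℝ) ^ 2) + (U : ℝ) * (1 / 2) := by
    intro g hg
    have hg2 := (Finset.mem_Icc.1 hg).1
    have hg2' : (2 : ℝ) ≤ g := by exact_mod_cast hg2
    have e1 : ((Finset.Icc 1 (U / g) ×ˢ Finset.Ioc (A / g) (2 * A / g)).image
      fun q : ℕ × ℕ => (g * q.1, g * q.2)).card ≤ (U / g) * (2 * A / g - A / g) := by
      refine Finset.card_image_le.trans ?_
      rw [Finset.card_product, Nat.card_Icc, Nat.card_Ioc]
      simp
    have e2 : ((U / g : ℕ) : ℝ) ≤ (U : ℝ) / g := Nat.cast_div_le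
    have e3 : (0 : ℝ) ≤ ((U / g : ℕ) : ℝ) := Nat.cast_nonneg _
    have e4 : ((2 * A / g - A / g : ℕ) : ℝ) ≤ (A : ℝ) / g + 1 := by
      have e5 : ((2 * A / g : ℕ) : ℝ) ≤ ((2 * A : ℕ) : ℝ) / g := Nat.cast_div_le
      have e6 : (A : ℝ) / g - 1 ≤ ((A / g : ℕ) : ℝ) := by
        have := Nat.lt_floor_add_one ((A : ℝ) / g)
        rw [Nat.floor_div_eq_div] at this
        linarith
      have e7 : A / g ≤ 2 * A / g := Nat.div_le_div_right (by omega)
      rw [Nat.cast_sub e7]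
      push_cast at e5 ⊢
      have e8 : (2 : ℝ) * A / g = A / g + A / g := by ring
      linarith
    calc ((((Finset.Icc 1 (U / g) ×ˢ Finset.Ioc (A / g) (2 * A / g)).image
      fun q : ℕ × ℕ => (g * q.1, g * q.2)).card : ℕ) : ℝ)
          ≤ (((U / g) * (2 * A / g - A / g) : ℕ) : ℝ) := by exact_mod_cast e1
      _ = ((U / g : ℕ) : ℝ) * ((2 * A / g - A / g : ℕ) : ℝ) := by rw [Nat.cast_mul]
      _ ≤ ((U : ℝ) / g) * ((A : ℝ) / g + 1) := mul_le_mul e2 e4 (Nat.cast_nonneg _) (e3.trans e2)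
      _ = (U : ℝ) * A * (1 / (g : ℝ) ^ 2) + (U : ℝ) * (1 / g) := by ring
      _ ≤ (U : ℝ) * A * (1 / (g : ℝ) ^ 2) + (U : ℝ) * (1 / 2) := by
          have : (1 : ℝ) / g ≤ 1 / 2 := one_div_le_one_div_of_le (by norm_num) hg2'
          have := mul_le_mul_of_nonneg_left this (Nat.cast_nonneg U : (0 : ℝ) ≤ U)
          linarith
  have h6 : ((((Finset.Icc 1 U ×ˢ Finset.Ioc A (2 * A)).filter
      fun q : ℕ × ℕ => ¬ Nat.Coprime q.1 q.2).card : ℕ) : ℝ) ≤
        (U : ℝ) * A * (3 / 4) + U * (U * (1 / 2)) := by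
    refine (Nat.cast_le.2 h4).trans ?_
    rw [Nat.cast_sum]
    refine (Finset.sum_le_sum h5).trans ?_
    rw [Finset.sum_add_distrib, ← Finset.mul_sum, Finset.sum_const, nsmul_eq_mul]
    refine add_le_add (mul_le_mul_of_nonneg_left (sum_sq' U) (by positivity)) ?_
    refine mul_le_mul_of_nonneg_right ?_ (by positivity)
    rw [Nat.card_Icc]
    exact_mod_cast (by omega : U + 1 - 2 ≤ U)
  have h7 : (((CQ U A).card : ℕ) : ℝ) + ((((Finset.Icc 1 U ×ˢ Finset.Ioc A (2 * A)).filter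
      fun q : ℕ × ℕ => ¬ Nat.Coprime q.1 q.2).card : ℕ) : ℝ) = (U : ℝ) * A := by
    rw [h1] at h2
    have := congrArg (Nat.cast : ℕ → ℝ) h2
    push_cast at this
    exact this
  have h8 : (6 : ℝ) * U ≤ A + 1 := by exact_mod_cast hU
  have h9 : (9 : ℝ) ≤ A := by exact_mod_cast hA
  have h10 : (U : ℝ) ≤ 5 / 27 * A := by linarith
  have h11 : (U : ℝ) * U ≤ U * (5 / 27 * A) := mul_le_mul_of_nonneg_left h10 (Nat.cast_nonneg _)
  have h12 : (0 : ℝ) ≤ (U : ℝ) * A := by positivity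
  nlinarith

lemma pr_tr (q : ℕ × ℕ) : pr (tr q) = q.1 * q.2 * (q.1 + q.2) := by
  show ((q.1 : ℤ) * (q.2 : ℤ) * -((q.1 : ℤ) + q.2)).natAbs = _
  rw [mul_neg, Int.natAbs_neg]
  have : (q.1 : ℤ) * (q.2 : ℤ) * ((q.1 : ℤ) + q.2) = ((q.1 * q.2 * (q.1 + q.2) : ℕ) : ℤ) := by
    push_cast
    ring
  rw [this, Int.natAbs_natCast]

lemma ht_tr (q : ℕ × ℕ) : ht (tr q) = q.1 + q.2 := by
  show max (q.1 : ℤ).natAbs (max (q.2 : ℤ).natAbs (-((q.1 : ℤ) + q.2)).natAbs) = _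
  omega

theorem pf_LTL : T_LTL := by
  classical
  refine ⟨1 / 160, by norm_num, ?_⟩
  intro X lam hlam hX
  have hfin : {x | x ∈ TT X lam ∧ (ht x : ℝ) ≤ X}.Finite := by
    refine (fin_ht X).subset ?_
    rintro x ⟨⟨h1, h2, -⟩, h3⟩
    exact ⟨h1, h2, h3⟩
  refine ⟨hfin, ?_⟩
  rcases lt_trichotomy X 0 with hneg | hzero | hpos
  · have h1 : X ^ (2 / 3 : ℝ) ≤ 0 := by
      rw [Real.rpow_def_of_neg hneg]
      refine mul_nonpos_of_nonneg_of_nonpos (Real.exp_pos _).le ?_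
      exact Real.cos_nonpos_of_pi_div_two_le_of_le (by linarith [Real.pi_pos])
        (by linarith [Real.pi_pos])
    have h2 : 1 / 160 * lam⁻¹ * X ^ (2 / 3 : ℝ) ≤ 0 :=
      mul_nonpos_of_nonneg_of_nonpos (by positivity) h1
    exact h2.trans (Nat.cast_nonneg _)
  · rw [hzero, Real.zero_rpow (by norm_num)] at hX
    linarith
  have hlam0 : 0 < lam := by linarith
  set W : ℝ := X ^ (1 / 6 : ℝ) with hW
  have hW6 : W ^ 6 = X := by
    rw [hW, ← Real.rpow_natCast, ← Real.rpow_mul hpos.le]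
    norm_num
  have hX23 : X ^ (2 / 3 : ℝ) = W ^ 4 := by
    rw [hW, ← Real.rpow_natCast, ← Real.rpow_mul hpos.le]
    norm_num
  have hX13 : X ^ (1 / 3 : ℝ) = W ^ 2 := by
    rw [hW, ← Real.rpow_natCast, ← Real.rpow_mul hpos.le]
    norm_num
  have hW3 : 3 ≤ W := by linarith
  set Z : ℝ := W ^ 2 with hZ
  have hZlam : 9 * lam ^ 2 ≤ Z := by
    rw [hZ]
    nlinarith
  have hlam2 : 1 ≤ lam ^ 2 := by nlinarith
  have hZ9 : 9 ≤ Z := by linarith
  set x : ℝ := Z / (6 * lam ^ 2) with hx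
  have hx1 : 3 / 2 ≤ x := by
    rw [hx, le_div_iff₀ (by positivity)]
    linarith
  set V : ℝ := lam * Z with hV
  have hV9 : 9 ≤ V := by
    rw [hV]
    nlinarith
  set U : ℕ := ⌊x⌋₊ with hU
  set A : ℕ := ⌊V⌋₊ with hA
  have hUx : (U : ℝ) ≤ x := Nat.floor_le (by linarith)
  have hUx' : x < U + 1 := Nat.lt_floor_add_one x
  have hAV : (A : ℝ) ≤ V := Nat.floor_le (by linarith)
  have hAV' : V < A + 1 := Nat.lt_floor_add_one V
  have hA9 : 9 ≤ A := Nat.le_floor (by exact_mod_cast hV9)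
  have hU1 : 1 ≤ U := Nat.le_floor (by push_cast; linarith)
  have hxV : 6 * x ≤ V := by
    have : 6 * x = Z / lam ^ 2 := by
      rw [hx]
      field_simp
    rw [this, hV, div_le_iff₀ (by positivity)]
    have h1 : 1 ≤ lam * lam ^ 2 := by nlinarith
    calc Z = 1 * Z := (one_mul Z).symm
      _ ≤ (lam * lam ^ 2) * Z := mul_le_mul_of_nonneg_right h1 (by linarith)
      _ = lam * Z * lam ^ 2 := by ring
  have hUA : 6 * U ≤ A + 1 := by
    have : (6 : ℝ) * U ≤ A + 1 := by linarith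
    exact_mod_cast this
  have hxVV : 6 * x * V ^ 2 = X := by
    rw [hx, hV, ← hW6, hZ]
    field_simp
  have hsub : ((CQ U A).image tr : Set (Fin 3 → ℤ)) ⊆ {x | x ∈ TT X lam ∧ (ht x : ℝ) ≤ X} := by
    intro y hy
    rw [Finset.mem_coe, Finset.mem_image] at hy
    obtain ⟨q, hq, rfl⟩ := hy
    unfold CQ at hq
    rw [Finset.mem_filter, Finset.mem_product, Finset.mem_Icc, Finset.mem_Ioc] at hq
    obtain ⟨⟨⟨ha, hb⟩, hc, hd⟩, hn⟩ := hq
    have ha' : (1 : ℝ) ≤ q.1 := by exact_mod_cast ha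
    have hb' : (q.1 : ℝ) ≤ x := (Nat.cast_le.2 hb).trans hUx
    have hc' : V < q.2 := by
      have : ((A + 1 : ℕ) : ℝ) ≤ q.2 := by exact_mod_cast hc
      push_cast at this
      linarith
    have hd' : (q.2 : ℝ) ≤ 2 * V := by
      have : (q.2 : ℝ) ≤ ((2 * A : ℕ) : ℝ) := by exact_mod_cast hd
      push_cast at this
      linarith
    have hpr : (pr (tr q) : ℝ) ≤ X := by
      rw [pr_tr, ← hxVV]
      push_cast
      have e1 : (q.1 : ℝ) + q.2 ≤ 3 * V := by linarith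
      calc (q.1 : ℝ) * q.2 * (q.1 + q.2) ≤ x * (2 * V) * (3 * V) := by
            refine mul_le_mul (mul_le_mul hb' hd' (by positivity) (by linarith)) e1 (by positivity)
              (by positivity)
        _ = 6 * x * V ^ 2 := by ring
    have hpd : pd (pr (tr q)).primeFactors ≤ pr (tr q) := by
      refine Nat.le_of_dvd ?_ (Nat.prod_primeFactors_dvd _)
      rw [pr_tr]
      have : 1 ≤ q.2 := by omega
      positivity
    have hpdX : (pd (pr (tr q)).primeFactors : ℝ) ≤ X := (Nat.cast_le.2 hpd).trans hpr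
    refine ⟨⟨tr_adm ha (by omega) hn, hpdX, ?_⟩, ?_⟩
    · calc lam * (pd (pr (tr q)).primeFactors : ℝ) ^ (1 / 3 : ℝ) ≤ lam * X ^ (1 / 3 : ℝ) := by
            refine mul_le_mul_of_nonneg_left ?_ hlam0.le
            exact Real.rpow_le_rpow (Nat.cast_nonneg _) hpdX (by norm_num)
        _ = V := by rw [hX13, hV]
        _ < (ht (tr q) : ℝ) := by
            rw [ht_tr]
            push_cast
            linarith
    · rw [ht_tr]
      push_cast
      have e1 : (q.1 : ℝ) + q.2 ≤ 3 * V := by linarith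
      refine e1.trans ?_
      have e2 : 3 * V = (3 * lam) * W ^ 2 := by rw [hV, hZ]; ring
      rw [e2, ← hW6]
      calc (3 * lam) * W ^ 2 ≤ W * W ^ 2 := mul_le_mul_of_nonneg_right hX (by positivity)
        _ = W ^ 3 := by ring
        _ ≤ W ^ 6 := pow_le_pow_right₀ (by linarith) (by norm_num)
  have hcard : ((CQ U A).card : ℝ) ≤ ({x | x ∈ TT X lam ∧ (ht x : ℝ) ≤ X}.ncard : ℝ) := by
    have h1 := Set.ncard_le_ncard hsub hfin
    rw [Set.ncard_coe_finset, Finset.card_image_of_injective _ tr_inj] at h1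
    exact_mod_cast h1
  have h8 := cop_card U A hA9 hUA
  refine le_trans ?_ (h8.trans hcard)
  have hU1' : (1 : ℝ) ≤ U := by exact_mod_cast hU1
  have hU2 : x / 2 ≤ U := by linarith
  have hA2 : V / 2 ≤ A := by
    have : (9 : ℝ) ≤ A := by exact_mod_cast hA9
    linarith
  have h9 : x / 2 * (V / 2) ≤ (U : ℝ) * A :=
    mul_le_mul hU2 hA2 (by linarith) (by linarith)
  have h10 : x * V = lam⁻¹ * W ^ 4 / 6 := by
    rw [hx, hV, hZ]
    field_simp
  rw [hX23]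
  have h11 : 1 / 160 * lam⁻¹ * W ^ 4 = 3 / 20 * (x / 2 * (V / 2)) := by
    have : x / 2 * (V / 2) = (x * V) / 4 := by ring
    rw [this, h10]
    ring
  rw [h11]
  exact mul_le_mul_of_nonneg_left h9 (by norm_num)

end Pool.Agent.H11.AS
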